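import Pool.Agent.P.MP_708f28_lc.Main

namespace Pool.Agent.Results.MP_708f28_lc.CompleteAnalytic

open Pool.Agent.P.MP_708f28_lc

universe u

/-- `A` is analytic: it is the image of a Polish space under a Borel map. -/
def IsAnalytic (A : Set SF) : Prop :=
  ∃ (Z : Type) (_ : TopologicalSpace Z) (_ : PolishSpace Z) (f : Z → SF),
    @Measurable Z SF (borel Z) effros f ∧ Set.range f = A

/-- `A` is complete analytic: it is analytic and every analytic subset of a Polish space is its
preimage under a Borel map. -/
def IsCompleteAnalytic (A : Set SF) : Prop :=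
  IsAnalytic A ∧
    ∀ (Z : Type u) [TopologicalSpace Z] [PolishSpace Z] (B : Set Z), MeasureTheory.AnalyticSet B →
      ∃ f : Z → SF, @Measurable Z SF (borel Z) effros f ∧ B = f ⁻¹' A

/-- The set of closed subspaces of `C(ℝ)` with a Schauder basis is complete analytic. -/
theorem result : IsCompleteAnalytic.{u} SFb :=
  ⟨SFb_analytic, fun _ _ _ B hB => exists_reduction B hB⟩

end Pool.Agent.Results.MP_708f28_lc.CompleteAnalytic
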