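import Pool.Agent.P.MP_708f28_lc.Main

namespace Pool.Agent.Results.MP_708f28_lc.NotBorel

open Pool.Agent.P.MP_708f28_lc

/-- The set of closed subspaces of `C(ℝ)` with a Schauder basis is not Borel in the Effros Borel
structure. -/
theorem result : ¬ @MeasurableSet SF effros SFb :=
  SFb_not_borel

end Pool.Agent.Results.MP_708f28_lc.NotBorel
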